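import Pool.Agent.Lib_helper58.CE.Defs
import Pool.Agent.Lib_helper82.BR.Final

/-! # Level families (MP_45e720_ag): plane forms in charts -/

set_option autoImplicit false
set_option linter.unusedVariables false
set_option linter.unusedSectionVars false

open Filter Topology Metric Set
open scoped Manifold ContDiff Bundle

namespace Pool.Agent.CE

open Pool.Agent.CartanLevels

section

variable {E X : Type} [NormedAddCommGroup E] [NormedSpace ℂ E] [FiniteDimensional ℂ E]
  [TopologicalSpace X] [ChartedSpace E X] [IsManifold 𝓘(ℂ, E) ω X]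

/-- the form as a function of tangent pairs -/
def old (s : X → E × E × E → ℂ) (p : BR.TangentPairs E X) : ℂ :=
  s p.proj (chartAt E p.proj p.proj, (p.snd.1, p.snd.2))

theorem old_chart' {k : ℕ} {s : X → E × E × E → ℂ} (hs : IsPlaneForm E k s) (y x : X) (u v : E)
    (hx : x ∈ (chartAt E y).source) :
    s x (chartAt E x x, (u, v)) = s y (BR.frm_chart (E := E) y (⟨x, (u, v)⟩ : BR.TangentPairs E X)) := by
  have h0 := BR.frm_apply (E := E) y x u v
  refine Eq.trans ?_ (congrArg (s y) h0).symm
  have h1 : (chartAt E x).symm (chartAt E x x) = x := (chartAt E x).left_inv (mem_chart_source E x)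
  have h2 := hs.glue x y (chartAt E x x) u v (mem_chart_target E x) (by rw [h1]; exact hx)
  have h3 : tr E x y (chartAt E x x) = chartAt E y x := by
    unfold tr
    rw [h1]
  have h4 : ∀ w : E, fderiv ℂ (tr E x y) (chartAt E x x) w = tangentCoordChange 𝓘(ℂ, E) x y x w :=
    fun w => SS.in2_tcc (E := E) (y := x) (y' := y) (x := x) w
  rw [h3, h4, h4] at h2
  exact h2.symm

theorem old_chart {k : ℕ} {s : X → E × E × E → ℂ} (hs : IsPlaneForm E k s) (y : X)
    {p : BR.TangentPairs E X} (hp : p.proj ∈ (chartAt E y).source) :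
    old s p = s y (BR.frm_chart (E := E) y p) :=
  old_chart' hs y p.proj p.snd.1 p.snd.2 hp

theorem old_symm {k : ℕ} {s : X → E × E × E → ℂ} (hs : IsPlaneForm E k s) (y : X)
    {q : E × (E × E)} (hq : q.1 ∈ (chartAt E y).target) :
    (fun q : E × (E × E) => old s ((BR.frm_chart (E := E) y).symm q)) =ᶠ[𝓝 q] s y := by
  have h3 : (q : ModelProd E (E × E)) ∈ (BR.frm_chart (E := E) y).target :=
    (BR.frm_target _ _).2 hq
  filter_upwards [(BR.frm_chart (E := E) y).open_target.mem_nhds h3] with q' hq'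
  have h4 := (BR.frm_chart (E := E) y).map_target hq'
  rw [old_chart hs y ((BR.frm_source _ _).1 h4), (BR.frm_chart (E := E) y).right_inv hq']

theorem old_md {k : ℕ} {s : X → E × E × E → ℂ} (hs : IsPlaneForm E k s) :
    MDifferentiable (𝓘(ℂ, E).prod 𝓘(ℂ, E × E)) 𝓘(ℂ, ℂ) (old s) := by
  intro p
  have hsrc : p ∈ (BR.frm_chart (E := E) p.proj).source :=
    (BR.frm_source _ _).2 (mem_chart_source E _)
  have hev : old s =ᶠ[𝓝 p] (s p.proj) ∘ (BR.frm_chart (E := E) p.proj) := by
    filter_upwards [(BR.frm_chart (E := E) p.proj).open_source.mem_nhds hsrc] with p' hp'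
    exact old_chart hs p.proj ((BR.frm_source _ _).1 hp')
  have h2 : (BR.frm_chart (E := E) p.proj p).1 ∈ (chartAt E p.proj).target :=
    (BR.frm_target _ _).1 ((BR.frm_chart (E := E) p.proj).map_source hsrc)
  have h3 := hs.hol p.proj _ h2
  have hc : ContinuousAt (old s) p := by
    refine ContinuousAt.congr ?_ hev.symm
    exact ContinuousAt.comp (g := s p.proj) h3.continuousAt
      ((BR.frm_chart (E := E) p.proj).continuousAt hsrc)
  have h4 : DifferentiableAt ℂ (fun q : E × (E × E) => old s ((BR.frm_chart (E := E) p.proj).symm q))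
      (BR.frm_chart (E := E) p.proj p) :=
    h3.differentiableAt.congr_of_eventuallyEq (old_symm hs p.proj h2)
  rw [mdifferentiableAt_iff]
  refine ⟨hc, ?_⟩
  simp only [writtenInExtChartAt, extChartAt, OpenPartialHomeomorph.extend, BR.frm_at, mfld_simps]
  rw [Prod.map_id, range_id, differentiableWithinAt_univ]
  exact h4

theorem old_form {k : ℕ} {s : X → E × E × E → ℂ} (hs : IsPlaneForm E k s) :
    BR.IsPlaneForm E X k (old s) :=
  ⟨old_md hs, fun x a b c d u v => hs.det x _ u v a b c d (mem_chart_target E x)⟩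

theorem old_deriv {k : ℕ} {s : X → E × E × E → ℂ} (hs : IsPlaneForm E k s) (x : X) (u v : E)
    (w : E × E × E) :
    (mfderiv (𝓘(ℂ, E).prod 𝓘(ℂ, E × E)) 𝓘(ℂ, ℂ) (old s) (⟨x, (u, v)⟩ : BR.TangentPairs E X) w : ℂ) =
      fderiv ℂ (s x) (chartAt E x x, u, v) w := by
  rw [BR.frm_mfderiv (old_md hs)]
  have h1 : BR.frm_chart (E := E) x (⟨x, (u, v)⟩ : BR.TangentPairs E X) =
      (chartAt E x x, (u, v)) := by
    rw [BR.frm_apply, tangentCoordChange_self, tangentCoordChange_self]
    · simp only [extChartAt_source]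
      exact mem_chart_source E x
    · simp only [extChartAt_source]
      exact mem_chart_source E x
  show fderiv ℂ (fun q : E × (E × E) => old s ((BR.frm_chart (E := E) x).symm q))
    (BR.frm_chart (E := E) x (⟨x, (u, v)⟩ : BR.TangentPairs E X)) w = _
  rw [h1]
  have h2 := old_symm hs x (q := (chartAt E x x, (u, v))) (mem_chart_target E x)
  rw [h2.fderiv_eq]

theorem planeAmple_old (hX : PlaneAmple E X) : BrodyRigid.PlaneAmple E X := by
  rw [BrodyRigid.planeAmple_iff]
  obtain ⟨k, L, s, hk, hs, h⟩ := hX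
  refine ⟨k, L, fun i => old (s i), hk, fun i => old_form (hs i), fun x u v huv => ?_⟩
  obtain ⟨h1, h2⟩ := h x (chartAt E x x) u v (mem_chart_target E x) huv
  refine ⟨h1, fun ξ' u' v' m hm => ?_⟩
  refine h2 (ξ', u', v') m fun i => ?_
  rw [← old_deriv (hs i) x u v (ξ', u', v')]
  exact hm i

end

end Pool.Agent.CE
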