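import Pool.Agent.Lib_helper58.CE.Defs
import Pool.Agent.Lib_helper80.SL.Notions

/-! # Level families (MP_45e720_ag): Brody curves and hyperbolicity in charts -/

set_option autoImplicit false
set_option linter.unusedVariables false
set_option linter.unusedSectionVars false

open Filter Topology Metric Set
open scoped Manifold ContDiff

namespace Pool.Agent.CE

open Pool.Agent.CartanLevels

section

variable {E X : Type} [NormedAddCommGroup E] [NormedSpace ℂ E] [FiniteDimensional ℂ E]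
  [TopologicalSpace X] [ChartedSpace E X] [IsManifold 𝓘(ℂ, E) ω X]

/-- compact neighbourhoods in charts -/
theorem exists_nbhd [CompactSpace X] [T2Space X] (x : X) {U : Set X} (hU : U ∈ 𝓝 x) :
    ∃ V : Set X, V ∈ 𝓝 x ∧ IsCompact V ∧ V ⊆ U ∩ (chartAt E x).source := by
  have h1 : U ∩ (chartAt E x).source ∈ 𝓝 x :=
    inter_mem hU ((chartAt E x).open_source.mem_nhds (mem_chart_source E x))
  obtain ⟨V, hV, hVU, hVc⟩ := local_compact_nhds h1
  exact ⟨V, hV, hVc, hVU⟩

/-- the fibre coordinate of the velocity in the trivialization over a chart -/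
theorem coord (f : ℂ → X) (y : X) (z : ℂ) (hf : MDifferentiableAt 𝓘(ℂ, ℂ) 𝓘(ℂ, E) f z)
    (hz : f z ∈ (chartAt E y).source) :
    trivializationAt E (TangentSpace 𝓘(ℂ, E)) y (BrodyRigid.velocity (E := E) f z) =
      (f z, deriv (fun w => chartAt E y (f w)) z) := by
  have : IsManifold 𝓘(ℂ, E) 1 X := IsManifold.of_le (n := ω) le_top
  have hb : f z ∈ (trivializationAt E (TangentSpace 𝓘(ℂ, E)) y).baseSet := hz
  have h1 := TangentBundle.continuousLinearMapAt_trivializationAt (I := 𝓘(ℂ, E)) hz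
  have h2 : mfderiv 𝓘(ℂ, ℂ) 𝓘(ℂ, E) (extChartAt 𝓘(ℂ, E) y ∘ f) z =
      (mfderiv 𝓘(ℂ, E) 𝓘(ℂ, E) (extChartAt 𝓘(ℂ, E) y) (f z)).comp
        (mfderiv 𝓘(ℂ, ℂ) 𝓘(ℂ, E) f z) :=
    mfderiv_comp z (mdifferentiableAt_extChartAt hz) hf
  have h3 : deriv (fun w => chartAt E y (f w)) z =
      mfderiv 𝓘(ℂ, ℂ) 𝓘(ℂ, E) (extChartAt 𝓘(ℂ, E) y ∘ f) z (1 : ℂ) := by
    rw [mfderiv_eq_fderiv]
    rfl
  have h4 := (trivializationAt E (TangentSpace 𝓘(ℂ, E)) y).continuousLinearMapAt_apply_of_mem
    ℂ hb (mfderiv 𝓘(ℂ, ℂ) 𝓘(ℂ, E) f z (1 : ℂ))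
  refine Prod.ext ((trivializationAt E (TangentSpace 𝓘(ℂ, E)) y).coe_fst' hb) ?_
  rw [h3, h2]
  rw [h1] at h4
  exact h4.symm

theorem isBrody_old [CompactSpace X] [T2Space X] {h : ℂ → X} (hh : IsBrody E h) :
    BrodyRigid.IsBrodyCurve (E := E) h := by
  obtain ⟨hm, hb⟩ := hh
  choose U hU C hC using hb
  have h1 : ∀ x : X, ∃ V : Set X, V ∈ 𝓝 x ∧ IsCompact V ∧ V ⊆ U x ∩ (chartAt E x).source :=
    fun x => exists_nbhd x (hU x)
  choose V hV hVc hVU using h1
  obtain ⟨t, -, ht⟩ := (isCompact_univ (X := X)).elim_nhds_subcover V fun x _ => hV x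
  let e : X → Bundle.Trivialization E
      (Bundle.TotalSpace.proj : TangentBundle 𝓘(ℂ, E) X → X) := fun x =>
    trivializationAt E (TangentSpace 𝓘(ℂ, E)) x
  refine ⟨hm, ⋃ x ∈ t, (e x).toOpenPartialHomeomorph.symm '' (V x ×ˢ closedBall 0 (C x)),
    t.isCompact_biUnion fun x _ => ?_, fun z => ?_⟩
  · refine IsCompact.image_of_continuousOn
      ((hVc x).prod (isCompact_closedBall (0 : E) (C x))) ?_
    refine (e x).toOpenPartialHomeomorph.continuousOn_symm.mono ?_
    intro p hp
    exact ((e x).mem_target).2 (hVU x hp.1).2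
  · have h2 := ht (mem_univ (h z))
    simp only [mem_iUnion] at h2 ⊢
    obtain ⟨x, hx, hxz⟩ := h2
    have h3 : h z ∈ (chartAt E x).source := (hVU x hxz).2
    refine ⟨x, hx, (h z, deriv (fun w => chartAt E x (h w)) z),
      ⟨hxz, mem_closedBall_zero_iff.2 (hC x z (hVU x hxz).1)⟩, ?_⟩
    have h4 := coord h x z (hm z) h3
    rw [← h4]
    exact (e x).toOpenPartialHomeomorph.left_inv (((e x).mem_source).2 h3)

theorem hyperbolic_new [CompactSpace X] [T2Space X] {x : X}
    (h : StrongLang.HyperbolicAt E x) : HyperbolicAt E x := by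
  obtain ⟨V, hV, K, hK, hKf⟩ := h
  obtain ⟨N, hN, hNc, hNV⟩ := exists_nbhd (E := E) x hV
  have hT2 : T2Space X := inferInstance
  let e : Bundle.Trivialization E
      (Bundle.TotalSpace.proj : TangentBundle 𝓘(ℂ, E) X → X) :=
    trivializationAt E (TangentSpace 𝓘(ℂ, E)) x
  have hcl : IsClosed (Bundle.TotalSpace.proj ⁻¹' N : Set (TangentBundle 𝓘(ℂ, E) X)) :=
    hNc.isClosed.preimage (FiberBundle.continuous_proj E (TangentSpace 𝓘(ℂ, E)))
  have hK' : IsCompact (K ∩ (Bundle.TotalSpace.proj ⁻¹' N : Set (TangentBundle 𝓘(ℂ, E) X))) :=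
    hK.inter_right hcl
  have hcont : ContinuousOn (fun p : TangentBundle 𝓘(ℂ, E) X => (e p).2)
      (K ∩ (Bundle.TotalSpace.proj ⁻¹' N)) := by
    refine continuous_snd.comp_continuousOn (e.continuousOn.mono ?_)
    intro p hp
    exact (e.mem_source).2 (hNV hp.2).2
  obtain ⟨C, hC⟩ := (hK'.image_of_continuousOn hcont).isBounded.exists_norm_le
  refine ⟨N, hN, C, fun f hf hf0 => ?_⟩
  have hfV : f 0 ∈ V := (hNV hf0).1
  have hfs : f 0 ∈ (chartAt E x).source := (hNV hf0).2
  have h1 := hKf f hf hfV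
  have h2 : MDifferentiableAt 𝓘(ℂ, ℂ) 𝓘(ℂ, E) f 0 :=
    (hf 0 (mem_ball_self one_pos)).mdifferentiableAt (ball_mem_nhds 0 one_pos)
  have h3 := coord f x 0 h2 hfs
  have h4 := hC _ ⟨_, ⟨h1, hf0⟩, rfl⟩
  have h5 : (e (BrodyRigid.velocity (E := E) f 0)).2 = deriv (fun w => chartAt E x (f w)) 0 :=
    congrArg Prod.snd h3
  rw [← h5]
  exact h4

theorem entire_of_hyp (hH : ∀ x : X, HyperbolicAt E x) : NoEntireCurves E X := by
  intro f hf
  have hlc : IsLocallyConstant f := by
    rw [IsLocallyConstant.iff_eventually_eq]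
    intro z₀
    obtain ⟨U, hU, C, hC⟩ := hH (f z₀)
    have hc : ContinuousAt f z₀ := (hf z₀).continuousAt
    have h1 : ∀ᶠ z in 𝓝 z₀, f z ∈ U ∧ f z ∈ (chartAt E (f z₀)).source :=
      (hc.eventually hU).and (hc.eventually
        ((chartAt E (f z₀)).open_source.mem_nhds (mem_chart_source E _)))
    obtain ⟨r, hr, hb⟩ := Metric.eventually_nhds_iff_ball.1 h1
    have hd : ∀ z ∈ ball z₀ r, HasDerivAt (fun w => chartAt E (f z₀) (f w)) 0 z := by
      intro z hz
      obtain ⟨h2, h3⟩ := hb z hz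
      have h4 : MDifferentiableAt 𝓘(ℂ, E) 𝓘(ℂ, E) (chartAt E (f z₀)) (f z) :=
        mdifferentiableAt_atlas (I := 𝓘(ℂ, E)) (chart_mem_atlas E _) h3
      have h5 : DifferentiableAt ℂ (fun w => chartAt E (f z₀) (f w)) z :=
        (h4.comp z (hf z)).differentiableAt
      have h6 : deriv (fun w => chartAt E (f z₀) (f w)) z = 0 := by
        by_contra hne
        have h7 : 0 < ‖deriv (fun w => chartAt E (f z₀) (f w)) z‖ := norm_pos_iff.2 hne
        obtain ⟨n, hn⟩ := exists_nat_gt (C / ‖deriv (fun w => chartAt E (f z₀) (f w)) z‖)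
        rw [div_lt_iff₀ h7] at hn
        have h8 : MDifferentiable 𝓘(ℂ, ℂ) 𝓘(ℂ, ℂ) (fun w : ℂ => z + (n : ℂ) * w) := by
          rw [mdifferentiable_iff_differentiable]
          fun_prop
        have h9 := hC (fun w => f (z + (n : ℂ) * w)) (fun w _ =>
          ((hf.comp h8) w).mdifferentiableWithinAt) (by
            show f (z + (n : ℂ) * 0) ∈ U
            rw [mul_zero, add_zero]
            exact h2)
        have h10 : HasDerivAt (fun w => chartAt E (f z₀) (f (z + (n : ℂ) * w)))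
            ((n : ℂ) • deriv (fun w => chartAt E (f z₀) (f w)) z) 0 := by
          have h11 : HasDerivAt (fun w : ℂ => z + (n : ℂ) * w) (n : ℂ) 0 := by
            simpa using ((hasDerivAt_id (0 : ℂ)).const_mul (n : ℂ)).const_add z
          have h12 : HasDerivAt (fun w => chartAt E (f z₀) (f w))
              (deriv (fun w => chartAt E (f z₀) (f w)) z) ((fun w : ℂ => z + (n : ℂ) * w) 0) := by
            simp only [mul_zero, add_zero]
            exact h5.hasDerivAt
          exact HasDerivAt.scomp (0 : ℂ) h12 h11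
        rw [h10.deriv, norm_smul, Complex.norm_natCast] at h9
        linarith
      rw [← h6]
      exact h5.hasDerivAt
    filter_upwards [isOpen_ball.mem_nhds (mem_ball_self hr)] with z hz
    have h2 := (convex_ball z₀ r).is_const_of_fderivWithin_eq_zero (𝕜 := ℂ)
      (f := fun w => chartAt E (f z₀) (f w))
      (fun w hw => (hd w hw).differentiableAt.differentiableWithinAt)
      (fun w hw => by
        rw [fderivWithin_of_isOpen isOpen_ball hw]
        have := (hd w hw).hasFDerivAt.fderiv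
        rw [this]
        ext
        simp) hz (mem_ball_self hr)
    exact (chartAt E (f z₀)).injOn (hb z hz).2 (mem_chart_source E _) h2
  exact fun z z' => hlc.apply_eq_of_isPreconnected isPreconnected_univ (mem_univ z) (mem_univ z')

theorem tori_of_entire (h : NoEntireCurves E X) : NoTori E X := by
  intro V _ _ m p g hp hg _ v v'
  have h1 : MDifferentiable 𝓘(ℂ, ℂ) 𝓘(ℂ, V) (fun t : ℂ => v + t • (v' - v)) := by
    rw [mdifferentiable_iff_differentiable]
    fun_prop
  have h2 := h _ (hg.comp h1) 0 1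
  simpa using h2

theorem elliptic_of_tori (h : NoTori E X) : NoEllipticCurves E X := by
  rintro g hg ⟨a, b, hab, hp⟩ w w'
  refine h ℂ 2 ![a, b] g ?_ hg ?_ w w'
  · intro v
    have hd : a.re * b.im - a.im * b.re ≠ 0 := sub_ne_zero.2 hab
    obtain ⟨c, c', h0, h1⟩ : ∃ c c' : ℝ, v.re = c * a.re + c' * b.re ∧
        v.im = c * a.im + c' * b.im := by
      refine ⟨(v.re * b.im - v.im * b.re) / (a.re * b.im - a.im * b.re),
        (a.re * v.im - a.im * v.re) / (a.re * b.im - a.im * b.re), ?_, ?_⟩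
      · rw [div_mul_eq_mul_div, div_mul_eq_mul_div, ← add_div, eq_div_iff hd]
        ring
      · rw [div_mul_eq_mul_div, div_mul_eq_mul_div, ← add_div, eq_div_iff hd]
        ring
    refine ⟨![c, c'], ?_, ?_⟩
    · show v = _
      rw [Fin.sum_univ_two]
      apply Complex.ext
      · simp [h0]
      · simp [h1]
    · intro e he
      have he' : v = ∑ j, (e j : ℂ) • (![a, b] : Fin 2 → ℂ) j := he
      rw [Fin.sum_univ_two] at he'
      have h2 : v.re = e 0 * a.re + e 1 * b.re := by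
        rw [he']
        simp
      have h3 : v.im = e 0 * a.im + e 1 * b.im := by
        rw [he']
        simp
      have h4 : (e 0 - c) * (a.re * b.im - a.im * b.re) = 0 := by
        linear_combination b.im * (h0 - h2) - b.re * (h1 - h3)
      have h5 : (e 1 - c') * (a.re * b.im - a.im * b.re) = 0 := by
        linear_combination a.re * (h1 - h3) - a.im * (h0 - h2)
      have h6 := (mul_eq_zero.1 h4).resolve_right hd
      have h7 := (mul_eq_zero.1 h5).resolve_right hd
      funext j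
      fin_cases j
      · exact sub_eq_zero.1 h6
      · exact sub_eq_zero.1 h7
  · intro j z
    fin_cases j
    · exact (hp z).1
    · exact (hp z).2

end

theorem twoPeriods_new {X : Type} {h : ℂ → X} (hh : BrodyRigid.DoublyPeriodic h) :
    HasTwoPeriods h := by
  obtain ⟨Λ, _, hΛ, hp⟩ := hh
  by_contra hno
  have h1 : ∀ a ∈ Λ, ∀ b ∈ Λ, a.re * b.im = a.im * b.re := by
    intro a ha b hb
    by_contra hne
    exact hno ⟨a, b, hne, fun z => ⟨hp a ha z, hp b hb z⟩⟩
  have hspan : Submodule.span ℝ (Λ : Set ℂ) = ⊤ := hΛ.span_top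
  obtain ⟨a, ha, ha0⟩ : ∃ a ∈ Λ, a ≠ 0 := by
    by_contra hz
    push Not at hz
    have h2 : Submodule.span ℝ (Λ : Set ℂ) ≤ ⊥ := by
      rw [Submodule.span_le]
      intro x hx
      exact hz x hx
    rw [hspan] at h2
    have h3 : (1 : ℂ) ∈ (⊥ : Submodule ℝ ℂ) := h2 trivial
    exact one_ne_zero ((Submodule.mem_bot ℝ).1 h3)
  let l : ℂ →ₗ[ℝ] ℝ := a.re • Complex.imLm - a.im • Complex.reLm
  have h2 : Submodule.span ℝ (Λ : Set ℂ) ≤ LinearMap.ker l := by
    rw [Submodule.span_le]
    intro b hb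
    have h3 := h1 a ha b hb
    show l b = 0
    simp [l, h3]
  rw [hspan] at h2
  have h3 : l (Complex.I * a) = 0 := h2 (trivial : Complex.I * a ∈ (⊤ : Submodule ℝ ℂ))
  have h4 : a.re * a.re + a.im * a.im = 0 := by
    have h5 : l (Complex.I * a) = a.re * a.re + a.im * a.im := by
      simp [l]
    rw [← h5, h3]
  apply ha0
  have h5 : Complex.normSq a = 0 := by
    rw [Complex.normSq_apply]
    exact h4
  exact Complex.normSq_eq_zero.1 h5

end Pool.Agent.CE
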