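import Pool.Agent.Lib_helper58.CE.Defs
import Pool.Agent.Lib_helper80.IS.L.E2

/-! # Level families (MP_45e720_ag): unramified coverings -/

set_option autoImplicit false
set_option linter.unusedVariables false
set_option linter.unusedSectionVars false

open Filter Topology Metric Set
open scoped Manifold ContDiff

namespace Pool.Agent.CE

open Pool.Agent.CartanLevels Pool.Agent.IS

section

variable {E X X' : Type} [NormedAddCommGroup E] [NormedSpace ℂ E] [FiniteDimensional ℂ E]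
  [TopologicalSpace X] [ChartedSpace E X] [IsManifold 𝓘(ℂ, E) ω X]
  [TopologicalSpace X'] [ChartedSpace E X'] [IsManifold 𝓘(ℂ, E) ω X']

theorem unramified_old {π : X' → X} (h : IsUnramified E π) :
    MDifferentiable 𝓘(ℂ, E) 𝓘(ℂ, E) π ∧
      ∀ (x' : X') (v : E), (SS.dirDeriv π x' v : E) = 0 → v = 0 := by
  refine ⟨h.1, fun x' v hv => h.2 x' v ?_⟩
  rw [e2_deriv h.1] at hv
  exact hv

/-- entire curves can be lifted to the covering -/
theorem exists_lift [T2Space X] [ConnectedSpace X] [CompactSpace X'] [T2Space X'] [Nonempty X']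
    {π : X' → X} (hπ : MDifferentiable 𝓘(ℂ, E) 𝓘(ℂ, E) π)
    (hi : ∀ (x' : X') (v : E), (SS.dirDeriv π x' v : E) = 0 → v = 0)
    {f : ℂ → X} (hf : MDifferentiable 𝓘(ℂ, ℂ) 𝓘(ℂ, E) f) :
    ∃ F : ℂ → X', MDifferentiable 𝓘(ℂ, ℂ) 𝓘(ℂ, E) F ∧ ∀ z, π (F z) = f z := by
  have hl := e2_local hπ hi
  have hcov : IsCoveringMap π := isLocalHomeomorph_iff_isCoveringMap.1 hl
  have hsurj : Function.Surjective π := by
    have h1 : IsClopen (range π) :=
      ⟨(isCompact_range hπ.continuous).isClosed, hl.isOpenMap.isOpen_range⟩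
    have h2 : range π = univ := h1.eq_univ (range_nonempty π)
    exact range_eq_univ.1 h2
  obtain ⟨e₀, he₀⟩ := hsurj (f 0)
  obtain ⟨F, ⟨hF0, hF⟩, -⟩ := hcov.existsUnique_continuousMap_lifts ⟨f, hf.continuous⟩ 0 e₀ he₀
  have hFf : ∀ z, π (F z) = f z := fun z => congrFun hF z
  -- the lift is holomorphic
  have hFd : MDifferentiable 𝓘(ℂ, ℂ) 𝓘(ℂ, E) (F : ℂ → X') := by
    intro z
    have : CompleteSpace E := FiniteDimensional.complete ℂ E
    set x := F z with hx
    set c' := chartAt E x with hc'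
    set c := chartAt E (π x) with hc
    have hxs : x ∈ c'.source := mem_chart_source E x
    have hπx : π x ∈ c.source := mem_chart_source E (π x)
    have han : AnalyticAt ℂ (e2_phi (E := E) π x (π x)) (c' x) := by
      refine e2_an hπ x (π x) (c'.map_source hxs) ?_
      rw [← hc', c'.left_inv hxs]
      exact hπx
    have hst := han.hasStrictFDerivAt
    set D : E →L[ℂ] E := fderiv ℂ (e2_phi (E := E) π x (π x)) (c' x) with hD
    have hinj : Function.Injective (D : E →ₗ[ℂ] E) := by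
      rw [injective_iff_map_eq_zero]
      intro v hv
      refine hi x v ?_
      rw [e2_deriv hπ]
      exact hv
    let L : E ≃L[ℂ] E :=
      (LinearEquiv.ofInjectiveEndo (D : E →ₗ[ℂ] E) hinj).toContinuousLinearEquiv
    have hL : (L : E →L[ℂ] E) = D := by
      ext v
      rfl
    have hst' : HasStrictFDerivAt (e2_phi (E := E) π x (π x)) (L : E →L[ℂ] E) (c' x) := by
      rw [hL]
      exact hst
    set g := hst'.localInverse (e2_phi (E := E) π x (π x)) L (c' x) with hg
    have hg1 : DifferentiableAt ℂ g (e2_phi (E := E) π x (π x) (c' x)) :=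
      hst'.to_localInverse.hasFDerivAt.differentiableAt
    have hg2 : ∀ᶠ ξ in 𝓝 (c' x), g (e2_phi (E := E) π x (π x) ξ) = ξ :=
      hst'.eventually_left_inverse
    have hphi : e2_phi (E := E) π x (π x) (c' x) = c (π x) := by
      unfold e2_phi
      rw [← hc', ← hc, c'.left_inv hxs]
    rw [hphi] at hg1
    -- near `z` one has `F w = c'.symm (g (c (f w)))`
    have hfz : f z = π x := by rw [hx, hFf]
    have h1 : MDifferentiableAt 𝓘(ℂ, E) 𝓘(ℂ, E) c (f z) := by
      rw [hfz]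
      exact mdifferentiableAt_atlas (chart_mem_atlas _ _) hπx
    have h2 : MDifferentiableAt 𝓘(ℂ, ℂ) 𝓘(ℂ, E) (fun w => c (f w)) z := h1.comp z (hf z)
    have h3 : MDifferentiableAt 𝓘(ℂ, E) 𝓘(ℂ, E) g (c (f z)) := by
      rw [hfz]
      exact hg1.mdifferentiableAt
    have h4 : MDifferentiableAt 𝓘(ℂ, ℂ) 𝓘(ℂ, E) (fun w => g (c (f w))) z :=
      h3.comp (f := fun w => c (f w)) z h2
    have hgx : g (c (f z)) = c' x := by
      have := hg2.self_of_nhds
      rw [hphi] at this
      rw [hfz]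
      exact this
    have h5 : MDifferentiableAt 𝓘(ℂ, E) 𝓘(ℂ, E) c'.symm (g (c (f z))) := by
      rw [hgx]
      exact mdifferentiableAt_atlas_symm (chart_mem_atlas _ _) (c'.map_source hxs)
    have h6 : MDifferentiableAt 𝓘(ℂ, ℂ) 𝓘(ℂ, E) (fun w => c'.symm (g (c (f w)))) z :=
      h5.comp (f := fun w => g (c (f w))) z h4
    refine h6.congr_of_eventuallyEq ?_
    have hFc : ContinuousAt F z := F.continuous.continuousAt
    have h7 : ∀ᶠ w in 𝓝 z, F w ∈ c'.source :=
      hFc.preimage_mem_nhds (c'.open_source.mem_nhds hxs)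
    have h8 : Tendsto (fun w => c' (F w)) (𝓝 z) (𝓝 (c' x)) :=
      (c'.continuousAt hxs).tendsto.comp hFc
    filter_upwards [h7, h8.eventually hg2] with w hw1 hw2
    unfold e2_phi at hw2
    rw [← hc', ← hc, c'.left_inv hw1, hFf] at hw2
    rw [hw2, c'.left_inv hw1]
  exact ⟨F, hFd, hFf⟩

/-- the lift of a Brody curve is a Brody curve -/
theorem lift_brody {π : X' → X} (hπ : IsUnramified E π) {f : ℂ → X} (hf : IsBrody E f)
    {F : ℂ → X'} (hF : MDifferentiable 𝓘(ℂ, ℂ) 𝓘(ℂ, E) F) (hFf : ∀ z, π (F z) = f z) :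
    IsBrody E F := by
  refine ⟨hF, fun x => ?_⟩
  have : CompleteSpace E := FiniteDimensional.complete ℂ E
  obtain ⟨U, hU, C, hC⟩ := hf.2 (π x)
  set c' := chartAt E x with hc'
  set c := chartAt E (π x) with hc
  have hxs : x ∈ c'.source := mem_chart_source E x
  have hπx : π x ∈ c.source := mem_chart_source E (π x)
  have han : AnalyticAt ℂ (e2_phi (E := E) π x (π x)) (c' x) := by
    refine e2_an hπ.1 x (π x) (c'.map_source hxs) ?_
    rw [← hc', c'.left_inv hxs]
    exact hπx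
  set D := fderiv ℂ (e2_phi (E := E) π x (π x)) with hD
  have hker : LinearMap.ker (D (c' x) : E →ₗ[ℂ] E) = ⊥ := by
    rw [LinearMap.ker_eq_bot']
    intro v hv
    exact hπ.2 x v hv
  obtain ⟨K, hK, hanti⟩ := (D (c' x) : E →ₗ[ℂ] E).exists_antilipschitzWith hker
  have hlow0 : ∀ v : E, ‖v‖ ≤ K * ‖D (c' x) v‖ := by
    intro v
    have h1 := hanti.le_mul_dist v 0
    rwa [map_zero, dist_zero_right, dist_zero_right] at h1
  have hKr : (0 : ℝ) < K := by exact_mod_cast hK
  have hDc : ContinuousAt D (c' x) := han.fderiv.continuousAt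
  have hD1 : ∀ᶠ ξ in 𝓝 (c' x), ‖D ξ - D (c' x)‖ < 1 / (2 * K) := by
    have h1 : ContinuousAt (fun ξ => ‖D ξ - D (c' x)‖) (c' x) := (hDc.sub continuousAt_const).norm
    refine h1.eventually_lt_const ?_
    simp only [sub_self, norm_zero]
    positivity
  have hlow : ∀ᶠ ξ in 𝓝 (c' x), ∀ v : E, ‖v‖ ≤ 2 * K * ‖D ξ v‖ := by
    filter_upwards [hD1] with ξ hξ v
    have h1 := hlow0 v
    have h2 : ‖D (c' x) v‖ ≤ ‖D ξ v‖ + ‖(D ξ - D (c' x)) v‖ := by
      have h3 : D (c' x) v = D ξ v - (D ξ - D (c' x)) v := by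
        rw [_root_.sub_apply, sub_sub_cancel]
      rw [h3]
      exact norm_sub_le _ _
    have h4 : ‖(D ξ - D (c' x)) v‖ ≤ 1 / (2 * K) * ‖v‖ :=
      ((D ξ - D (c' x)).le_opNorm v).trans (mul_le_mul_of_nonneg_right hξ.le (norm_nonneg v))
    have h5 : ‖v‖ ≤ K * ‖D ξ v‖ + ‖v‖ / 2 := by
      calc ‖v‖ ≤ K * ‖D (c' x) v‖ := h1
        _ ≤ K * (‖D ξ v‖ + 1 / (2 * K) * ‖v‖) :=
          mul_le_mul_of_nonneg_left (h2.trans (by linarith)) hKr.le
        _ = K * ‖D ξ v‖ + ‖v‖ / 2 := by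
          field_simp
    linarith
  have hcx : ContinuousAt c' x := c'.continuousAt hxs
  have hπc : ContinuousAt π x := (hπ.1 x).continuousAt
  refine ⟨_, (c'.open_source.eventually_mem hxs).and ((hcx.eventually hlow).and
    ((hπc.eventually hU).and (hπc.eventually (c.open_source.mem_nhds hπx)))), 2 * K * C, ?_⟩
  rintro z ⟨h1, h2, h3, h4⟩
  have h1' : F z ∈ c'.source := h1
  have h4' : π (F z) ∈ c.source := h4
  have h3' : f z ∈ U := by
    rw [← hFf]
    exact h3
  have h5 := hC z h3'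
  have h6 : MDifferentiableAt 𝓘(ℂ, E) 𝓘(ℂ, E) c' (F z) :=
    mdifferentiableAt_atlas (chart_mem_atlas _ _) h1'
  have h7 : DifferentiableAt ℂ (fun w => c' (F w)) z := (h6.comp z (hF z)).differentiableAt
  have h8 : DifferentiableAt ℂ (e2_phi (E := E) π x (π x)) (c' (F z)) := by
    refine e2_diff hπ.1 x (π x) (c'.map_source h1') ?_
    rw [← hc', c'.left_inv h1']
    exact h4'
  have h9 : HasDerivAt (fun w => e2_phi (E := E) π x (π x) (c' (F w)))
      (D (c' (F z)) (deriv (fun w => c' (F w)) z)) z := by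
    have h12 : HasFDerivAt (e2_phi (E := E) π x (π x)) (D (c' (F z))) (c' (F z)) := h8.hasFDerivAt
    exact HasFDerivAt.comp_hasDerivAt (f := fun w => c' (F w)) z h12 h7.hasDerivAt
  have h10 : (fun w => e2_phi (E := E) π x (π x) (c' (F w))) =ᶠ[𝓝 z] fun w => c (f w) := by
    filter_upwards [(hF z).continuousAt.eventually (c'.open_source.mem_nhds h1')] with w hw
    unfold e2_phi
    rw [← hc', ← hc, c'.left_inv hw, hFf]
  have h11 := (h9.congr_of_eventuallyEq h10.symm).deriv
  rw [h11] at h5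
  exact (h2 _).trans (mul_le_mul_of_nonneg_left h5 (by positivity))

end

end Pool.Agent.CE
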