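import Pool.Agent.Lib_helper58.CE.B2
import Pool.Agent.Lib_helper58.CE.B3
import Pool.Agent.Lib_helper58.OM.G
import Pool.Agent.Lib_helper58.OM.Levels

/-! # Level families (MP_45e720_ag): maps to projective spaces and tori -/

set_option autoImplicit false
set_option linter.unusedVariables false
set_option linter.unusedSectionVars false

open Filter Topology Metric Set
open scoped Manifold ContDiff

namespace Pool.Agent.CE

open Pool.Agent.CartanLevels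

section

variable {E X : Type} [NormedAddCommGroup E] [NormedSpace ℂ E]
  [TopologicalSpace X] [ChartedSpace E X]

theorem md_pi {m : ℕ} {G : X → Fin m → ℂ} {x : X} :
    MDifferentiableAt 𝓘(ℂ, E) 𝓘(ℂ, Fin m → ℂ) G x ↔
      ∀ k, MDifferentiableAt 𝓘(ℂ, E) 𝓘(ℂ, ℂ) (fun y => G y k) x := by
  constructor
  · intro h k
    have h1 : DifferentiableAt ℂ (fun v : Fin m → ℂ => v k) (G x) :=
      (ContinuousLinearMap.proj k : (Fin m → ℂ) →L[ℂ] ℂ).differentiableAt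
    exact h1.mdifferentiableAt.comp x h
  · intro h
    rw [mdifferentiableAt_iff]
    refine ⟨continuousAt_pi.2 fun k => (h k).continuousAt, ?_⟩
    rw [differentiableWithinAt_pi]
    intro k
    exact ((mdifferentiableAt_iff _ _).1 (h k)).2

/-- the map to the projective space with the homogeneous coordinates `φ` -/
noncomputable def pm {n : ℕ} (φ : X → Fin (n + 1) → ℂ) (h : ∀ x, φ x ≠ 0) (x : X) :
    Projectivization ℂ (Fin (n + 1) → ℂ) :=
  Projectivization.mk ℂ (φ x) (h x)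

theorem ne_of {n : ℕ} {φ : X → Fin (n + 1) → ℂ} (hφ : ∀ x : X, ∃ k, φ x k ≠ 0) (x : X) :
    φ x ≠ 0 := by
  intro h
  obtain ⟨k, hk⟩ := hφ x
  exact hk (congrFun h k)

theorem lift_old {n : ℕ} {φ : X → Fin (n + 1) → ℂ} (h : ∀ x, φ x ≠ 0)
    {g : Fin (n + 1) → X → ℂ} {x : X} (hg : IsLift E φ g x) :
    OrbifoldMaps.IsLift E (pm φ h) (fun y k => g k y) x := by
  refine ⟨?_, ?_⟩
  · filter_upwards [hg] with y hy
    exact md_pi.2 hy.1
  · filter_upwards [hg] with y hy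
    obtain ⟨c, hc, hk⟩ := hy.2
    have h1 : (fun k => g k y) = c • φ y := funext fun k => hk k
    have h2 : (fun k => g k y) ≠ 0 := by
      rw [h1]
      exact smul_ne_zero hc (h y)
    refine ⟨h2, ?_⟩
    unfold pm
    rw [Projectivization.mk_eq_mk_iff']
    refine ⟨c⁻¹, ?_⟩
    rw [h1, smul_smul, inv_mul_cancel₀ hc, one_smul]

theorem lift_new {n : ℕ} {φ : X → Fin (n + 1) → ℂ} (h : ∀ x, φ x ≠ 0)
    {G : X → Fin (n + 1) → ℂ} {x : X} (hG : OrbifoldMaps.IsLift E (pm φ h) G x) :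
    IsLift E φ (fun k y => G y k) x := by
  filter_upwards [hG.1, hG.2] with y h1 h2
  refine ⟨md_pi.1 h1, ?_⟩
  obtain ⟨h3, h4⟩ := h2
  unfold pm at h4
  rw [eq_comm, Projectivization.mk_eq_mk_iff'] at h4
  obtain ⟨c, hc⟩ := h4
  refine ⟨c, ?_, fun k => (congrFun hc k).symm⟩
  rintro rfl
  rw [zero_smul] at hc
  exact h3 hc.symm

theorem plane_old {n : ℕ} {φ : X → Fin (n + 1) → ℂ} (h : ∀ x, φ x ≠ 0) (b : Fin (n + 1) → ℂ) :
    {x | OrbifoldMaps.linForm b (pm φ h x).rep = 0} = plane φ b := by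
  ext x
  exact OM.lin_rep b (h x)

theorem orb_old {n q : ℕ} {φ : X → Fin (n + 1) → ℂ} {a : Fin q → Fin (n + 1) → ℂ}
    {m : Fin q → ℕ} (hφ : IsOrbifoldMap E φ a m) (h : ∀ x, φ x ≠ 0) :
    OrbifoldMaps.IsOrbifoldMap E (pm φ h) a m := by
  refine ⟨hφ.pos, fun x => ?_, fun b hb => ?_, fun s hs => ?_, fun i => ⟨(hφ.mult i).1, ?_⟩,
    hφ.cartan⟩
  · obtain ⟨g, hg⟩ := (hφ.hol x).2
    exact ⟨_, lift_old h hg⟩
  · have hb' : ∃ k, b k ≠ 0 := by
      by_contra hno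
      push Not at hno
      exact hb (funext hno)
    have h1 := hφ.nondeg b hb'
    rw [← plane_old h b, Ne, eq_univ_iff_forall] at h1
    push Not at h1
    exact h1
  · have h1 : Function.Injective (Matrix.mulVec (Matrix.of fun j k => a (s j) k)) := by
      have h2 : ∀ v : Fin (n + 1) → ℂ, (Matrix.of fun j k => a (s j) k).mulVec v = 0 → v = 0 := by
        intro v hv
        exact funext (hφ.gen s hs v fun j => congrFun hv j)
      intro v w hvw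
      have h3 := h2 (v - w) (by rw [Matrix.mulVec_sub, sub_eq_zero]; exact hvw)
      exact sub_eq_zero.1 h3
    exact Matrix.linearIndependent_rows_iff_isUnit.2 (Matrix.mulVec_injective_iff_isUnit.1 h1)
  · intro c G hc hG h0 j hj
    have h1 := lift_new h hG
    have h2 : c 0 ∈ plane φ (a i) := by
      obtain ⟨c', hc', hk⟩ := h1.self_of_nhds.2
      have h3 : ∑ k, a i k * G (c 0) k = 0 := h0
      have h4 : ∑ k, a i k * G (c 0) k = c' * ∑ k, a i k * φ (c 0) k := by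
        rw [Finset.mul_sum]
        refine Finset.sum_congr rfl fun k _ => ?_
        have h5 : G (c 0) k = c' * φ (c 0) k := hk k
        rw [h5]
        ring
      rw [h4] at h3
      exact (mul_eq_zero.1 h3).resolve_left hc'
    exact (hφ.mult i).2 c _ hc h2 h1 j hj

end

section

variable {r : ℕ} {Γ : Set (Fin r → ℂ)}

/-- the discrete subgroup -/
def lat (h0 : (fun _ => 0) ∈ Γ) (hs : ∀ γ ∈ Γ, ∀ γ' ∈ Γ, (fun k => γ k - γ' k) ∈ Γ) :
    Submodule ℤ (Fin r → ℂ) :=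
  AddSubgroup.toIntSubmodule
    { carrier := Γ
      zero_mem' := h0
      add_mem' := by
        intro γ γ' h1 h2
        have h3 := hs γ h1 _ (hs _ h0 γ' h2)
        have h4 : (fun k => γ k - ((fun _ => 0 : Fin r → ℂ) k - γ' k)) = γ + γ' := by
          funext k
          simp
        rwa [h4] at h3
      neg_mem' := by
        intro γ h1
        have h3 := hs _ h0 γ h1
        have h4 : (fun k => (fun _ => 0 : Fin r → ℂ) k - γ k) = -γ := by
          funext k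
          simp
        rwa [h4] at h3 }

theorem mem_lat {h0 : (fun _ => 0) ∈ Γ} {hs : ∀ γ ∈ Γ, ∀ γ' ∈ Γ, (fun k => γ k - γ' k) ∈ Γ}
    {γ : Fin r → ℂ} : γ ∈ lat h0 hs ↔ γ ∈ Γ := Iff.rfl

theorem lat_discrete (h0 : (fun _ => 0) ∈ Γ)
    (hs : ∀ γ ∈ Γ, ∀ γ' ∈ Γ, (fun k => γ k - γ' k) ∈ Γ)
    (hd : ∃ ε > 0, ∀ γ ∈ Γ, (∀ k, ‖γ k‖ < ε) → ∀ k, γ k = 0) : DiscreteTopology (lat h0 hs) := by
  obtain ⟨ε, hε, h⟩ := hd
  have h1 : IsOpen ({0} : Set (lat h0 hs)) := by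
    rw [Metric.isOpen_iff]
    rintro _ rfl
    refine ⟨ε, hε, fun γ hγ => ?_⟩
    rw [mem_ball_zero_iff] at hγ
    have h2 : ‖(γ : Fin r → ℂ)‖ < ε := hγ
    have h3 := h γ.1 γ.2 (fun k => (norm_le_pi_norm _ k).trans_lt h2)
    exact Subtype.ext (funext h3)
  exact discreteTopology_of_isOpen_singleton_zero h1

variable {E X : Type} [NormedAddCommGroup E] [NormedSpace ℂ E]
  [TopologicalSpace X] [ChartedSpace E X]

theorem torus_old {φ : X → Fin r → ℂ} (hφ : IsTorusMap E Γ φ) :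
    StrongLang.IsTorusValued E (lat hφ.zero hφ.sub)
      (fun x => (Submodule.Quotient.mk (φ x) : (Fin r → ℂ) ⧸ lat hφ.zero hφ.sub)) := by
  intro x
  obtain ⟨g, hg⟩ := hφ.hol x
  refine ⟨fun y k => g k y, ?_⟩
  filter_upwards [hg] with y hy
  refine ⟨md_pi.2 hy.1, ?_⟩
  rw [eq_comm, Submodule.Quotient.eq]
  exact hy.2

theorem family_old {𝒵 : Set (Set X)} (h : IsLevelFamily E 𝒵) : OrbifoldMaps.IsLevelFamily E 𝒵 := by
  rcases h with ⟨r, Γ, φ, hφ, hZ⟩ | ⟨n, q, φ, a, m, hφ, hZ⟩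
  · refine Or.inl ⟨Fin r → ℂ, inferInstance, inferInstance, inferInstance, lat hφ.zero hφ.sub,
      lat_discrete hφ.zero hφ.sub hφ.discrete, _, torus_old hφ, ?_⟩
    ext Z
    rw [hZ]
    refine exists_congr fun y => ?_
    have h1 : {x | (fun k => φ x k - φ y k) ∈ Γ} =
        {x | (Submodule.Quotient.mk (φ x) : (Fin r → ℂ) ⧸ lat hφ.zero hφ.sub) =
          Submodule.Quotient.mk (φ y)} := by
      ext x
      show _ ↔ _
      rw [mem_ofPred_eq, mem_ofPred_eq, Submodule.Quotient.eq]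
      rfl
    rw [h1]
  · have h0 : ∀ x, φ x ≠ 0 := ne_of fun x => (hφ.hol x).1
    refine Or.inr ⟨n, q, pm φ h0, a, m, orb_old hφ h0, ?_⟩
    ext Z
    rw [hZ]
    refine exists_congr fun b => ?_
    rw [plane_old h0 b]
    refine and_congr ?_ Iff.rfl
    rw [Ne, funext_iff]
    push Not
    rfl

end

section

variable {E X : Type} [NormedAddCommGroup E] [NormedSpace ℂ E] [FiniteDimensional ℂ E]
  [TopologicalSpace X] [ChartedSpace E X] [IsManifold 𝓘(ℂ, E) ω X]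

theorem curveAt_old {Z : Set X} {x : X} (h : IsCurveAt E Z x) : CurveFibres.IsCurveAt E Z x := by
  have : IsManifold 𝓘(ℂ, E) 1 X := IsManifold.of_le (n := ω) le_top
  obtain ⟨γ, h0, h1, h2, h3⟩ := h
  refine ⟨γ, h0, h1, fun hv => h2 ?_, h3⟩
  have h4 : mfderiv 𝓘(ℂ, ℂ) 𝓘(ℂ, E) γ 0 (1 : ℂ) = 0 := eq_of_heq (Bundle.TotalSpace.mk.inj hv).2
  have h5 : MDifferentiableAt 𝓘(ℂ, E) 𝓘(ℂ, E) (chartAt E x) (γ 0) := by
    refine mdifferentiableAt_atlas (I := 𝓘(ℂ, E)) (chart_mem_atlas E _) ?_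
    rw [h0]
    exact mem_chart_source E x
  have h6 : mfderiv 𝓘(ℂ, ℂ) 𝓘(ℂ, E) (chartAt E x ∘ γ) 0 =
      (mfderiv 𝓘(ℂ, E) 𝓘(ℂ, E) (chartAt E x) (γ 0)).comp (mfderiv 𝓘(ℂ, ℂ) 𝓘(ℂ, E) γ 0) :=
    mfderiv_comp 0 h5 h1.self_of_nhds
  have h7 : fderiv ℂ (chartAt E x ∘ γ) 0 (1 : ℂ) = 0 := by
    rw [← mfderiv_eq_fderiv]
    have h8 := DFunLike.congr_fun h6 (1 : ℂ)
    refine h8.trans ?_
    show (mfderiv 𝓘(ℂ, E) 𝓘(ℂ, E) (chartAt E x) (γ 0)) (mfderiv 𝓘(ℂ, ℂ) 𝓘(ℂ, E) γ 0 (1 : ℂ)) = 0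
    rw [h4, map_zero]
  exact h7

theorem curveSet_old {Z : Set X} (h : IsCurveSet E Z) : CurveFibres.IsCurveSet E Z := by
  obtain ⟨h1, S, hS, h2⟩ := h
  exact ⟨h1, S, hS, fun x hx => curveAt_old ((h2 x hx.1).resolve_left hx.2)⟩

theorem immersion_old (h : HasProjectiveImmersion E X) :
    ∃ (n : ℕ) (ι : X → Projectivization ℂ (Fin (n + 1) → ℂ)), ∀ x,
      ∃ g : X → Fin (n + 1) → ℂ, SS.IsImmersiveLift E X ι g x := by
  obtain ⟨n, φ, hφ⟩ := h
  have h0 : ∀ x, φ x ≠ 0 := ne_of fun x => (hφ x).1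
  refine ⟨n, pm φ h0, fun x => ?_⟩
  obtain ⟨-, g, hg, hu⟩ := hφ x
  have h1 := lift_old h0 hg
  refine ⟨fun y k => g k y, h1.1, h1.2, fun u m hm => hu u m fun k => ?_⟩
  have h2 : MDifferentiableAt 𝓘(ℂ, E) 𝓘(ℂ, Fin (n + 1) → ℂ) (fun y k => g k y) x :=
    h1.1.self_of_nhds
  have h3 : ∀ k, MDifferentiableAt 𝓘(ℂ, E) 𝓘(ℂ, ℂ) (g k) x := md_pi.1 h2
  have h4 : fderiv ℂ (fun ξ => g k ((chartAt E x).symm ξ)) (chartAt E x x) u =
      (mfderiv 𝓘(ℂ, E) 𝓘(ℂ, ℂ) (g k) x u : ℂ) := by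
    rw [(h3 k).mfderiv]
    simp only [writtenInExtChartAt, extChartAt, mfld_simps]
    rw [fderivWithin_univ]
    rfl
  rw [h4]
  have h5 : DifferentiableAt ℂ (fun v : Fin (n + 1) → ℂ => v k) ((fun y k => g k y) x) :=
    (ContinuousLinearMap.proj k : (Fin (n + 1) → ℂ) →L[ℂ] ℂ).differentiableAt
  have h6 : mfderiv 𝓘(ℂ, E) 𝓘(ℂ, ℂ) ((fun v : Fin (n + 1) → ℂ => v k) ∘ fun y k => g k y) x =
      (mfderiv 𝓘(ℂ, Fin (n + 1) → ℂ) 𝓘(ℂ, ℂ) (fun v : Fin (n + 1) → ℂ => v k)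
        ((fun y k => g k y) x)).comp
        (mfderiv 𝓘(ℂ, E) 𝓘(ℂ, Fin (n + 1) → ℂ) (fun y k => g k y) x) :=
    mfderiv_comp x h5.mdifferentiableAt h2
  have h7 := DFunLike.congr_fun h6 u
  refine h7.trans ?_
  rw [mfderiv_eq_fderiv]
  have h8 : fderiv ℂ (fun v : Fin (n + 1) → ℂ => v k) ((fun y k => g k y) x) =
      (ContinuousLinearMap.proj k : (Fin (n + 1) → ℂ) →L[ℂ] ℂ) :=
    (ContinuousLinearMap.proj k : (Fin (n + 1) → ℂ) →L[ℂ] ℂ).fderiv
  rw [h8]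
  exact congrFun hm k

end

end Pool.Agent.CE
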