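import Mathlib

/-! # Level families and Kobayashi hyperbolicity (MP_45e720_ag): definitions for the statement

A complex manifold is a charted space `X` over a finite-dimensional complex normed space `E` with
analytic transition maps. A map between complex manifolds is holomorphic if it is complex
differentiable (`MDifferentiable`). -/

set_option autoImplicit false

open Filter Topology Metric Set
open scoped Manifold ContDiff

namespace Pool.Agent.CartanLevels

section

variable (E : Type) {X : Type} [NormedAddCommGroup E] [NormedSpace ℂ E] [TopologicalSpace X]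
  [ChartedSpace E X]

/-! ## Ampleness -/

/-- the change from the chart at `y` to the chart at `y'` -/
def tr (y y' : X) (ξ : E) : E := chartAt E y' ((chartAt E y).symm ξ)

/-- `s` is a section of the line bundle `O(k)` on the bundle `Gr(2, TX)` of tangent 2-planes,
regarded as a holomorphic function of two tangent vectors at the same point which is multiplied by
the `k`-th power of the determinant under linear substitutions of the two vectors; `s y (ξ, u, v)` is
the value at the tangent vectors with the coordinates `u` and `v` at the point with the coordinates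
`ξ` in the chart at `y`. If `X` is a surface, then this is a section of the `k`-th power of the
canonical bundle. -/
structure IsPlaneForm (k : ℕ) (s : X → E × E × E → ℂ) : Prop where
  hol : ∀ (y : X) (p : E × E × E), p.1 ∈ (chartAt E y).target → AnalyticAt ℂ (s y) p
  det : ∀ (y : X) (ξ u v : E) (a b c d : ℂ), ξ ∈ (chartAt E y).target →
    s y (ξ, a • u + b • v, c • u + d • v) = (a * d - b * c) ^ k * s y (ξ, u, v)
  glue : ∀ (y y' : X) (ξ u v : E), ξ ∈ (chartAt E y).target →
    (chartAt E y).symm ξ ∈ (chartAt E y').source →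
    s y' (tr E y y' ξ, fderiv ℂ (tr E y y') ξ u, fderiv ℂ (tr E y y') ξ v) = s y (ξ, u, v)

variable (X)

/-- The line bundle `O(1)` on the bundle `Gr(2, TX)` of tangent 2-planes is ample: for some `k > 0`
there are sections of `O(k)` without common zeros which define an immersion of `Gr(2, TX)` into a
projective space. (The pairs of linearly independent tangent vectors form a `GL₂`-bundle over
`Gr(2, TX)`; the last condition says that a tangent vector of this bundle, which is mapped by the
differential to a multiple of the value, is tangent to the orbit of `GL₂`.) If `X` is a surface,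
then this says that the canonical bundle of `X` is ample. -/
def PlaneAmple : Prop :=
  ∃ (k L : ℕ) (s : Fin L → X → E × E × E → ℂ), 0 < k ∧ (∀ i, IsPlaneForm E k (s i)) ∧
    ∀ (y : X) (ξ u v : E), ξ ∈ (chartAt E y).target → LinearIndependent ℂ ![u, v] →
      (∃ i, s i y (ξ, u, v) ≠ 0) ∧
      ∀ (p : E × E × E) (m : ℂ), (∀ i, fderiv ℂ (s i y) (ξ, u, v) p = m * s i y (ξ, u, v)) →
        p.1 = 0 ∧ p.2.1 ∈ Submodule.span ℂ {u, v} ∧ p.2.2 ∈ Submodule.span ℂ {u, v}

variable {X}

/-! ## Curves -/

/-- `h` is a Brody curve: a holomorphic map from the plane to `X` with bounded derivative. -/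
def IsBrody (h : ℂ → X) : Prop :=
  MDifferentiable 𝓘(ℂ, ℂ) 𝓘(ℂ, E) h ∧ ∀ x : X, ∃ U ∈ 𝓝 x, ∃ C : ℝ, ∀ z, h z ∈ U →
    ‖deriv (fun w => chartAt E x (h w)) z‖ ≤ C

/-- `h` has two periods which are linearly independent over the real numbers: it factors through an
elliptic curve. -/
def HasTwoPeriods (h : ℂ → X) : Prop :=
  ∃ a b : ℂ, a.re * b.im ≠ a.im * b.re ∧ ∀ z, h (z + a) = h z ∧ h (z + b) = h z

/-- The image of `h` is contained in a rational or elliptic curve: in the image of a nonconstant
holomorphic map from an elliptic curve to `X`. -/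
def InEllipticImage (h : ℂ → X) : Prop :=
  ∃ g : ℂ → X, MDifferentiable 𝓘(ℂ, ℂ) 𝓘(ℂ, E) g ∧ HasTwoPeriods g ∧ (∃ w w', g w ≠ g w') ∧
    ∀ z, ∃ w, g w = h z

variable (X)

/-- all holomorphic maps from elliptic curves to `X` are constant -/
def NoEllipticCurves : Prop :=
  ∀ g : ℂ → X, MDifferentiable 𝓘(ℂ, ℂ) 𝓘(ℂ, E) g → HasTwoPeriods g → ∀ w w', g w = g w'

/-- All holomorphic maps from the tori `V / Λ` to `X` are constant: all holomorphic maps from the
complex vector space `V` to `X` with periods `p j` which form a basis of `V` over the real numbers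
are constant. -/
def NoToriFrom (V : Type) [NormedAddCommGroup V] [NormedSpace ℂ V] : Prop :=
  ∀ (m : ℕ) (p : Fin m → V) (g : V → X), (∀ v : V, ∃! c : Fin m → ℝ, v = ∑ j, (c j : ℂ) • p j) →
    MDifferentiable 𝓘(ℂ, V) 𝓘(ℂ, E) g → (∀ j v, g (v + p j) = g v) → ∀ v v', g v = g v'

/-- All holomorphic maps from complex tori to `X` are constant. -/
def NoTori : Prop :=
  ∀ (V : Type) [NormedAddCommGroup V] [NormedSpace ℂ V], NoToriFrom E X V

/-- all holomorphic maps from the plane to `X` are constant -/
def NoEntireCurves : Prop :=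
  ∀ g : ℂ → X, MDifferentiable 𝓘(ℂ, ℂ) 𝓘(ℂ, E) g → ∀ z z', g z = g z'

variable {X}

/-- `X` is hyperbolic at `x`: the derivatives at the origin of all holomorphic maps from the unit disc
to `X` which map the origin to a point near `x` are bounded (so the infinitesimal Kobayashi metric is
bounded below near `x`). -/
def HyperbolicAt (x : X) : Prop :=
  ∃ U ∈ 𝓝 x, ∃ C : ℝ, ∀ f : ℂ → X, MDifferentiableOn 𝓘(ℂ, ℂ) 𝓘(ℂ, E) f (ball 0 1) →
    f 0 ∈ U → ‖deriv (fun w => chartAt E x (f w)) 0‖ ≤ C

/-! ## Maps to projective spaces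

A map from `X` to the projective space of dimension `n` is given by homogeneous coordinates `φ x` of
the image of `x`. -/

/-- near `x` the map with the homogeneous coordinates `φ` is `[g 0 : … : g n]`, `g` holomorphic -/
def IsLift {n : ℕ} (φ : X → Fin (n + 1) → ℂ) (g : Fin (n + 1) → X → ℂ) (x : X) : Prop :=
  ∀ᶠ y in 𝓝 x, (∀ k, MDifferentiableAt 𝓘(ℂ, E) 𝓘(ℂ, ℂ) (g k) y) ∧
    ∃ c : ℂ, c ≠ 0 ∧ ∀ k, g k y = c * φ y k

/-- `φ` are homogeneous coordinates of a holomorphic map to a projective space. -/
def IsProjectiveMap {n : ℕ} (φ : X → Fin (n + 1) → ℂ) : Prop :=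
  ∀ x : X, (∃ k, φ x k ≠ 0) ∧ ∃ g, IsLift E φ g x

/-- the inverse image of the hyperplane with the coefficients `a` -/
def plane {n : ℕ} (φ : X → Fin (n + 1) → ℂ) (a : Fin (n + 1) → ℂ) : Set X :=
  {x | ∑ k, a k * φ x k = 0}

/-- All components of the inverse image of the hyperplane `a` have a multiplicity of at least `m`:
every holomorphic curve `c` (defined near the origin) which starts in this inverse image meets it
with a multiplicity of at least `m`, that is, its local equation `∑ a k * g k` vanishes along `c` to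
an order of at least `m` at the origin. -/
def HasMultiplicity {n : ℕ} (φ : X → Fin (n + 1) → ℂ) (a : Fin (n + 1) → ℂ) (m : ℕ) : Prop :=
  ∀ (c : ℂ → X) (g : Fin (n + 1) → X → ℂ),
    (∀ᶠ t in 𝓝 (0 : ℂ), MDifferentiableAt 𝓘(ℂ, ℂ) 𝓘(ℂ, E) c t) → c 0 ∈ plane φ a →
    IsLift E φ g (c 0) → ∀ j < m, iteratedDeriv j (fun t => ∑ k, a k * g k (c t)) 0 = 0

/-- `φ` is a holomorphic map from `X` to the projective space of dimension `n > 0`, the image of which
is contained in no hyperplane, the hyperplanes `a i` are in general position (any `n + 1` of them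
have no common point), all components of the inverse image of the hyperplane `a i` have a
multiplicity of at least `m i > 0`, and Cartan's bound `∑ max 0 (1 - n / m i) ≥ n + 1` holds. (For
`n = 1`: `φ` is a nonconstant map to the projective line, the hyperplanes are distinct points of the
projective line, all components of the fibre over the point number `i` have a multiplicity of at
least `m i`, and `∑ (1 - 1 / m i) ≥ 2`.) -/
structure IsOrbifoldMap {n q : ℕ} (φ : X → Fin (n + 1) → ℂ) (a : Fin q → Fin (n + 1) → ℂ)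
    (m : Fin q → ℕ) : Prop where
  pos : 0 < n
  hol : IsProjectiveMap E φ
  nondeg : ∀ b : Fin (n + 1) → ℂ, (∃ k, b k ≠ 0) → plane φ b ≠ univ
  gen : ∀ s : Fin (n + 1) → Fin q, Function.Injective s → ∀ v : Fin (n + 1) → ℂ,
    (∀ j, ∑ k, a (s j) k * v k = 0) → ∀ k, v k = 0
  mult : ∀ i, 0 < m i ∧ HasMultiplicity E φ (a i) (m i)
  cartan : (n + 1 : ℚ) ≤ ∑ i, max 0 (1 - n / (m i : ℚ))

/-! ## Maps to complex tori

A map from `X` to the torus `ℂʳ / Γ` is given by a map `φ` to `ℂʳ`. -/

/-- `Γ` is a discrete subgroup of `ℂʳ` and `φ` is a holomorphic map from `X` to `ℂʳ / Γ`: locally it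
is given by holomorphic functions `g`. -/
structure IsTorusMap {r : ℕ} (Γ : Set (Fin r → ℂ)) (φ : X → Fin r → ℂ) : Prop where
  zero : (fun _ => 0) ∈ Γ
  sub : ∀ γ ∈ Γ, ∀ γ' ∈ Γ, (fun k => γ k - γ' k) ∈ Γ
  discrete : ∃ ε > 0, ∀ γ ∈ Γ, (∀ k, ‖γ k‖ < ε) → ∀ k, γ k = 0
  hol : ∀ x : X, ∃ g : Fin r → X → ℂ, ∀ᶠ y in 𝓝 x,
    (∀ k, MDifferentiableAt 𝓘(ℂ, E) 𝓘(ℂ, ℂ) (g k) y) ∧ (fun k => g k y - φ y k) ∈ Γ

/-! ## Level families -/

/-- `𝒵` is the family of the fibres of a holomorphic map from `X` to a complex torus, or the family of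
the inverse images of the hyperplanes under a map to a projective space as in `IsOrbifoldMap`. -/
def IsLevelFamily (𝒵 : Set (Set X)) : Prop :=
  (∃ (r : ℕ) (Γ : Set (Fin r → ℂ)) (φ : X → Fin r → ℂ), IsTorusMap E Γ φ ∧
    ∀ Z, Z ∈ 𝒵 ↔ ∃ y, Z = {x | (fun k => φ x k - φ y k) ∈ Γ}) ∨
  ∃ (n q : ℕ) (φ : X → Fin (n + 1) → ℂ) (a : Fin q → Fin (n + 1) → ℂ) (m : Fin q → ℕ),
    IsOrbifoldMap E φ a m ∧ ∀ Z, Z ∈ 𝒵 ↔ ∃ b : Fin (n + 1) → ℂ, (∃ k, b k ≠ 0) ∧ Z = plane φ b

/-- Near its point `x` the set `Z` is a one-dimensional complex submanifold of `X`: the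
neighbourhoods of `x` in `Z` are the sets which contain the image of a neighbourhood of the origin
under a holomorphic immersion `γ` (defined near the origin of the plane, `γ 0 = x`). -/
def IsCurveAt (Z : Set X) (x : X) : Prop :=
  ∃ γ : ℂ → X, γ 0 = x ∧ (∀ᶠ t in 𝓝 (0 : ℂ), MDifferentiableAt 𝓘(ℂ, ℂ) 𝓘(ℂ, E) γ t) ∧
    deriv (fun t => chartAt E x (γ t)) 0 ≠ 0 ∧ Filter.map γ (𝓝 0) = 𝓝[Z] x

/-- `Z` is a closed set of complex dimension at most one: outside of a finite set it is a
one-dimensional complex submanifold of `X`. -/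
def IsCurveSet (Z : Set X) : Prop :=
  IsClosed Z ∧ ∃ S : Set X, S.Finite ∧ ∀ x ∈ Z, x ∈ S ∨ IsCurveAt E Z x

variable (X)

/-- There is a holomorphic immersion of `X` into a projective space (so `X` is projective, if it is
compact). -/
def HasProjectiveImmersion : Prop :=
  ∃ (n : ℕ) (φ : X → Fin (n + 1) → ℂ), ∀ x : X, (∃ k, φ x k ≠ 0) ∧ ∃ g, IsLift E φ g x ∧
    ∀ (u : E) (m : ℂ), (∀ k, fderiv ℂ (fun ξ => g k ((chartAt E x).symm ξ)) (chartAt E x x) u =
      m * g k x) → u = 0

/-- `X` is a surface with a level family which does not contain `X`, or `X` has a holomorphic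
immersion into a projective space and finitely many level families such that all intersections of
members of them have dimension at most one. -/
def HasSmallLevels : Prop :=
  (Module.finrank ℂ E = 2 ∧ ∃ 𝒵 : Set (Set X), IsLevelFamily E 𝒵 ∧ univ ∉ 𝒵) ∨
  (HasProjectiveImmersion E X ∧ ∃ (k : ℕ) (𝒵 : Fin k → Set (Set X)),
    (∀ j, IsLevelFamily E (𝒵 j)) ∧
      ∀ Z : Fin k → Set X, (∀ j, Z j ∈ 𝒵 j) → IsCurveSet E {x | ∀ j, x ∈ Z j})

/-- `X` has a holomorphic map to a projective space, with homogeneous coordinates `ψ`, and there are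
`n + 2` linear forms `L i` (`n > 0`) without common zeros on the image such that the powers
`(L i) ^ d` satisfy on `X` the relation `∑ (L i) ^ d = 0` and its multiples, but no other linear
relation, and `d ≥ n * (n + 2)`. For instance, `X` is the smooth surface `∑ (L i) ^ d = 0` in the
projective space of dimension three, `n ≥ 2`. -/
def HasFermatRelation : Prop :=
  ∃ (N n d : ℕ) (ψ : X → Fin (N + 1) → ℂ) (L : Fin (n + 2) → Fin (N + 1) → ℂ),
    IsProjectiveMap E ψ ∧ 0 < n ∧ n * (n + 2) ≤ d ∧ (∀ x, ∃ i, ∑ j, L i j * ψ x j ≠ 0) ∧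
    (∀ x, ∑ i, (∑ j, L i j * ψ x j) ^ d = 0) ∧
    ∀ c : Fin (n + 2) → ℂ, (∀ x, ∑ i, c i * (∑ j, L i j * ψ x j) ^ d = 0) → ∀ i i', c i = c i'

variable {X}

/-- `π` is holomorphic and unramified: its derivatives are injective. (If `X'` and `X` are compact
connected manifolds of the same dimension, then it is a finite unramified covering.) -/
def IsUnramified {X' : Type} [TopologicalSpace X'] [ChartedSpace E X'] (π : X' → X) : Prop :=
  MDifferentiable 𝓘(ℂ, E) 𝓘(ℂ, E) π ∧ ∀ (x : X') (u : E),
    fderiv ℂ (fun ξ => chartAt E (π x) (π ((chartAt E x).symm ξ))) (chartAt E x x) u = 0 → u = 0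

end

end Pool.Agent.CartanLevels
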