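import Pool.Agent.Lib_helper58.CE.B4

/-! # Level families (MP_45e720_ag): relations between powers of linear forms -/

set_option autoImplicit false
set_option linter.unusedVariables false
set_option linter.unusedSectionVars false

open Filter Topology Metric Set
open scoped Manifold ContDiff

namespace Pool.Agent.CE

open Pool.Agent.CartanLevels

section

/-- the coefficients of the hyperplanes -/
def fa {n : ℕ} (i : Fin (n + 2)) (k : Fin (n + 1)) : ℂ :=
  if i = Fin.last (n + 1) then 1 else if i = k.castSucc then 1 else 0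

theorem fa_last {n : ℕ} (v : Fin (n + 1) → ℂ) :
    ∑ k, fa (Fin.last (n + 1)) k * v k = ∑ k, v k := by
  simp [fa]

theorem fa_cast {n : ℕ} (i : Fin (n + 1)) (v : Fin (n + 1) → ℂ) :
    ∑ k, fa i.castSucc k * v k = v i := by
  have h1 : ∀ k, fa i.castSucc k * v k = if i = k then v k else 0 := by
    intro k
    have h2 : i.castSucc ≠ Fin.last (n + 1) := (Fin.castSucc_lt_last i).ne
    by_cases h3 : i = k
    · subst h3
      simp [fa, h2]
    · have h4 : i.castSucc ≠ k.castSucc := fun h => h3 (Fin.castSucc_injective _ h)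
      simp only [fa, h2, h4, h3, if_false, zero_mul]
  simp only [h1, Finset.sum_ite_eq, Finset.mem_univ, if_true]

theorem fa_gen {n : ℕ} (s : Fin (n + 1) → Fin (n + 2)) (hs : Function.Injective s)
    (v : Fin (n + 1) → ℂ) (hv : ∀ j, ∑ k, fa (s j) k * v k = 0) (k : Fin (n + 1)) : v k = 0 := by
  classical
  by_cases hk : ∃ j, s j = k.castSucc
  · obtain ⟨j, hj⟩ := hk
    have h1 := hv j
    rwa [hj, fa_cast] at h1
  · push Not at hk
    have h1 : Finset.univ.image s = Finset.univ.erase k.castSucc := by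
      refine Finset.eq_of_subset_of_card_le ?_ ?_
      · intro i hi
        obtain ⟨j, -, rfl⟩ := Finset.mem_image.1 hi
        exact Finset.mem_erase.2 ⟨hk j, Finset.mem_univ _⟩
      · rw [Finset.card_image_of_injective _ hs, Finset.card_erase_of_mem (Finset.mem_univ _)]
        simp
    have h2 : ∀ i, i ≠ k.castSucc → ∑ k', fa i k' * v k' = 0 := by
      intro i hi
      have h3 : i ∈ Finset.univ.image s := by
        rw [h1]
        exact Finset.mem_erase.2 ⟨hi, Finset.mem_univ _⟩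
      obtain ⟨j, -, rfl⟩ := Finset.mem_image.1 h3
      exact hv j
    have h3 := h2 (Fin.last (n + 1)) (Fin.castSucc_lt_last k).ne'
    rw [fa_last, Finset.sum_eq_single k] at h3
    · exact h3
    · intro k' _ hk'
      have h4 := h2 k'.castSucc fun h => hk' (Fin.castSucc_injective _ h)
      rwa [fa_cast] at h4
    · intro h
      exact absurd (Finset.mem_univ k) h

variable {E X : Type} [NormedAddCommGroup E] [NormedSpace ℂ E]
  [TopologicalSpace X] [ChartedSpace E X]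

theorem md_sum {m : ℕ} (L : Fin m → ℂ) {G : Fin m → X → ℂ} {x : X}
    (h : ∀ k, MDifferentiableAt 𝓘(ℂ, E) 𝓘(ℂ, ℂ) (G k) x) (d : ℕ) :
    MDifferentiableAt 𝓘(ℂ, E) 𝓘(ℂ, ℂ) (fun y => (∑ j, L j * G j y) ^ d) x := by
  have h1 : MDifferentiableAt 𝓘(ℂ, E) 𝓘(ℂ, Fin m → ℂ) (fun y k => G k y) x := md_pi.2 h
  have h2 : DifferentiableAt ℂ (fun v : Fin m → ℂ => (∑ j, L j * v j) ^ d)
      ((fun y k => G k y) x) := by fun_prop
  have h3 : MDifferentiableAt 𝓘(ℂ, E) 𝓘(ℂ, ℂ)
      ((fun v : Fin m → ℂ => (∑ j, L j * v j) ^ d) ∘ fun y k => G k y) x :=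
    h2.mdifferentiableAt.comp x h1
  exact h3

theorem fermat_levels {N n d : ℕ} {ψ : X → Fin (N + 1) → ℂ} {L : Fin (n + 2) → Fin (N + 1) → ℂ}
    (hψ : IsProjectiveMap E ψ) (hn : 0 < n) (hd : n * (n + 2) ≤ d)
    (h0 : ∀ x, ∃ i, ∑ j, L i j * ψ x j ≠ 0) (hr : ∀ x, ∑ i, (∑ j, L i j * ψ x j) ^ d = 0)
    (hc : ∀ c : Fin (n + 2) → ℂ, (∀ x, ∑ i, c i * (∑ j, L i j * ψ x j) ^ d = 0) →
      ∀ i i', c i = c i') :
    ∃ 𝒵 : Set (Set X), IsLevelFamily E 𝒵 ∧ univ ∉ 𝒵 := by
  have hd0 : 0 < d := lt_of_lt_of_le (by positivity) hd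
  set φ : X → Fin (n + 1) → ℂ := fun x k => (∑ j, L k.castSucc j * ψ x j) ^ d with hφ
  have hlast : ∀ x, ∑ k, φ x k = -(∑ j, L (Fin.last (n + 1)) j * ψ x j) ^ d := by
    intro x
    have h1 := hr x
    rw [Fin.sum_univ_castSucc] at h1
    exact eq_neg_of_add_eq_zero_left h1
  have hne : ∀ x, ∃ k, φ x k ≠ 0 := by
    intro x
    by_contra hno
    push Not at hno
    obtain ⟨i, hi⟩ := h0 x
    have h1 : (∑ j, L i j * ψ x j) ^ d = 0 := by
      refine Fin.lastCases ?_ (fun k => ?_) i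
      · have h2 := hlast x
        simp only [hno, Finset.sum_const_zero] at h2
        exact neg_eq_zero.1 h2.symm
      · exact hno k
    exact hi (pow_eq_zero_iff hd0.ne' |>.1 h1)
  have hnd : ∀ b : Fin (n + 1) → ℂ, (∃ k, b k ≠ 0) → plane φ b ≠ univ := by
    intro b hb hu
    obtain ⟨k, hk⟩ := hb
    have h1 := hc (Fin.snoc b 0) (by
      intro x
      have h2 : x ∈ plane φ b := by
        rw [hu]
        trivial
      have h3 : ∑ k, b k * φ x k = 0 := h2
      rw [Fin.sum_univ_castSucc]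
      simp only [Fin.snoc_castSucc, Fin.snoc_last, zero_mul, add_zero]
      exact h3) k.castSucc (Fin.last (n + 1))
    simp only [Fin.snoc_castSucc, Fin.snoc_last] at h1
    exact hk h1
  refine ⟨{Z | ∃ b : Fin (n + 1) → ℂ, (∃ k, b k ≠ 0) ∧ Z = plane φ b},
    Or.inr ⟨n, n + 2, φ, fa, fun _ => d, ⟨hn, fun x => ⟨hne x, ?_⟩, hnd, fa_gen,
      fun i => ⟨hd0, ?_⟩, ?_⟩, fun Z => Iff.rfl⟩, ?_⟩
  · obtain ⟨g, hg⟩ := (hψ x).2
    refine ⟨fun k y => (∑ j, L k.castSucc j * g j y) ^ d, ?_⟩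
    filter_upwards [hg] with y hy
    obtain ⟨h1, c, hc0, h2⟩ := hy
    refine ⟨fun k => md_sum _ h1 d, c ^ d, pow_ne_zero d hc0, fun k => ?_⟩
    simp only [h2, hφ]
    rw [← mul_pow, Finset.mul_sum]
    congr 1
    refine Finset.sum_congr rfl fun j _ => ?_
    ring
  · intro c G hcd hcp hG j hj
    obtain ⟨g, hg⟩ := (hψ (c 0)).2
    obtain ⟨i0, hi0⟩ := h0 (c 0)
    have hcc : ContinuousAt c 0 := hcd.self_of_nhds.continuousAt
    have hG' : ∀ᶠ t in 𝓝 (0 : ℂ), (∀ k, MDifferentiableAt 𝓘(ℂ, E) 𝓘(ℂ, ℂ) (G k) (c t)) ∧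
        ∃ e : ℂ, e ≠ 0 ∧ ∀ k, G k (c t) = e * φ (c t) k := hcc.eventually hG
    have hg' : ∀ᶠ t in 𝓝 (0 : ℂ), (∀ k, MDifferentiableAt 𝓘(ℂ, E) 𝓘(ℂ, ℂ) (g k) (c t)) ∧
        ∃ e : ℂ, e ≠ 0 ∧ ∀ k, g k (c t) = e * ψ (c t) k := hcc.eventually hg
    have hGc : ∀ᶠ t in 𝓝 (0 : ℂ), ∀ k, DifferentiableAt ℂ (fun t => G k (c t)) t := by
      filter_upwards [hG', hcd] with t h1 h2 k
      exact ((h1.1 k).comp t h2).differentiableAt
    have hgc : ∀ᶠ t in 𝓝 (0 : ℂ), ∀ k, DifferentiableAt ℂ (fun t => g k (c t)) t := by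
      filter_upwards [hg', hcd] with t h1 h2 k
      exact ((h1.1 k).comp t h2).differentiableAt
    set D : Fin (n + 2) → ℂ → ℂ := fun i t => ∑ k, fa i k * G k (c t) with hD
    set Λ : Fin (n + 2) → ℂ → ℂ := fun i t => ∑ j, L i j * g j (c t) with hΛ
    have hDa : ∀ i, AnalyticAt ℂ (D i) 0 := by
      intro i
      rw [Complex.analyticAt_iff_eventually_differentiableAt]
      filter_upwards [hGc] with t ht
      exact DifferentiableAt.fun_sum fun k _ => (ht k).const_mul _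
    have hΛa : ∀ i, AnalyticAt ℂ (Λ i) 0 := by
      intro i
      rw [Complex.analyticAt_iff_eventually_differentiableAt]
      filter_upwards [hgc] with t ht
      exact DifferentiableAt.fun_sum fun k _ => (ht k).const_mul _
    have key : ∀ i, ∃ ε : ℂ, ε ≠ 0 ∧ ∀ x, ∑ k, fa i k * φ x k = ε * (∑ j, L i j * ψ x j) ^ d := by
      intro i
      refine Fin.lastCases ?_ (fun k => ?_) i
      · refine ⟨-1, by norm_num, fun x => ?_⟩
        rw [fa_last, hlast]
        ring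
      · refine ⟨1, one_ne_zero, fun x => ?_⟩
        rw [fa_cast, one_mul]
    have hrel : ∀ᶠ t in 𝓝 (0 : ℂ), ∃ e : ℂ, e ≠ 0 ∧ ∀ i, ∀ ε : ℂ,
        (∀ x, ∑ k, fa i k * φ x k = ε * (∑ j, L i j * ψ x j) ^ d) →
        D i t = ε * e * Λ i t ^ d := by
      filter_upwards [hG', hg'] with t h1 h2
      obtain ⟨-, e1, he1, h3⟩ := h1
      obtain ⟨-, e2, he2, h4⟩ := h2
      refine ⟨e1 / e2 ^ d, div_ne_zero he1 (pow_ne_zero d he2), fun i ε hε => ?_⟩
      have h5 : D i t = e1 * ∑ k, fa i k * φ (c t) k := by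
        simp only [hD, h3]
        rw [Finset.mul_sum]
        refine Finset.sum_congr rfl fun k _ => ?_
        ring
      have h6 : Λ i t = e2 * ∑ j, L i j * ψ (c t) j := by
        simp only [hΛ, h4]
        rw [Finset.mul_sum]
        refine Finset.sum_congr rfl fun k _ => ?_
        ring
      rw [h5, h6, hε, mul_pow]
      have h7 : e2 ^ d ≠ 0 := pow_ne_zero d he2
      field_simp
    obtain ⟨ε, hε0, hε⟩ := key i
    obtain ⟨ε', hε0', hε'⟩ := key i0
    have hprod : (fun t => D i t * (ε' * Λ i0 t ^ d)) =ᶠ[𝓝 0] fun t => D i0 t * (ε * Λ i t ^ d) := by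
      filter_upwards [hrel] with t ht
      obtain ⟨e, -, h⟩ := ht
      rw [h i ε hε, h i0 ε' hε']
      ring
    have hΛ0 : Λ i0 0 ≠ 0 := by
      obtain ⟨-, e2, he2, h4⟩ := hg'.self_of_nhds
      have h6 : Λ i0 0 = e2 * ∑ j, L i0 j * ψ (c 0) j := by
        simp only [hΛ, h4]
        rw [Finset.mul_sum]
        refine Finset.sum_congr rfl fun k _ => ?_
        ring
      rw [h6]
      exact mul_ne_zero he2 hi0
    have hΛi : Λ i 0 = 0 := by
      obtain ⟨-, e2, he2, h4⟩ := hg'.self_of_nhds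
      have h6 : Λ i 0 = e2 * ∑ j, L i j * ψ (c 0) j := by
        simp only [hΛ, h4]
        rw [Finset.mul_sum]
        refine Finset.sum_congr rfl fun k _ => ?_
        ring
      have h7 : ∑ k, fa i k * φ (c 0) k = 0 := hcp
      rw [hε] at h7
      have h8 := (mul_eq_zero.1 h7).resolve_left hε0
      rw [h6, (pow_eq_zero_iff hd0.ne').1 h8, mul_zero]
    have hA : AnalyticAt ℂ (fun t => ε' * Λ i0 t ^ d) 0 := analyticAt_const.mul ((hΛa i0).pow d)
    have hB : AnalyticAt ℂ (fun t => ε * Λ i t ^ d) 0 := analyticAt_const.mul ((hΛa i).pow d)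
    have hord : analyticOrderAt (D i) 0 + 0 =
        analyticOrderAt (D i0) 0 + analyticOrderAt (fun t => ε * Λ i t ^ d) 0 := by
      have h1 : analyticOrderAt (fun t => ε' * Λ i0 t ^ d) 0 = 0 :=
        hA.analyticOrderAt_eq_zero.2 (mul_ne_zero hε0' (pow_ne_zero d hΛ0))
      rw [← h1]
      exact (analyticOrderAt_mul (hDa i) hA).symm.trans
        ((analyticOrderAt_congr hprod).trans (analyticOrderAt_mul (hDa i0) hB))
    have hge : (d : ℕ∞) ≤ analyticOrderAt (fun t => ε * Λ i t ^ d) 0 := by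
      have h1 : analyticOrderAt (fun t => ε * Λ i t ^ d) 0 =
          analyticOrderAt (fun _ : ℂ => ε) 0 + analyticOrderAt (Λ i ^ d) 0 :=
        analyticOrderAt_mul analyticAt_const ((hΛa i).pow d)
      rw [h1, analyticOrderAt_pow (hΛa i)]
      have h2 : 1 ≤ analyticOrderAt (Λ i) 0 := by
        rw [Order.one_le_iff_ne_zero]
        exact (hΛa i).analyticOrderAt_ne_zero.2 hΛi
      calc (d : ℕ∞) = d • (1 : ℕ∞) := by simp
        _ ≤ d • analyticOrderAt (Λ i) 0 := nsmul_le_nsmul_right h2 d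
        _ ≤ _ := le_add_self
    have hfin : (d : ℕ∞) ≤ analyticOrderAt (D i) 0 := by
      rw [add_zero] at hord
      rw [hord]
      exact hge.trans le_add_self
    exact (natCast_le_analyticOrderAt_iff_iteratedDeriv_eq_zero (hDa i)).1 hfin j hj
  · have hdq : (0 : ℚ) < d := by exact_mod_cast hd0
    have h1 : (1 : ℚ) - n / d ≤ max 0 (1 - (n : ℚ) / (d : ℚ)) := le_max_right _ _
    have h2 : ∑ _i : Fin (n + 2), max 0 (1 - (n : ℚ) / (d : ℚ)) =
        (n + 2 : ℚ) * max 0 (1 - (n : ℚ) / (d : ℚ)) := by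
      rw [Finset.sum_const, Finset.card_univ, Fintype.card_fin, nsmul_eq_mul]
      push_cast
      ring
    have h3 : ((n : ℚ) * (n + 2)) ≤ d := by exact_mod_cast hd
    show (n + 1 : ℚ) ≤ ∑ _i : Fin (n + 2), max 0 (1 - (n : ℚ) / (d : ℚ))
    rw [h2]
    have h4 : ((n : ℚ) * (n + 2)) / d ≤ 1 := (div_le_one hdq).2 h3
    calc (n + 1 : ℚ) ≤ (n + 2) - ((n : ℚ) * (n + 2)) / d := by linarith
      _ = (n + 2 : ℚ) * (1 - (n : ℚ) / d) := by ring
      _ ≤ _ := mul_le_mul_of_nonneg_left h1 (by positivity)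
  · rintro ⟨b, hb, hb'⟩
    exact hnd b hb hb'.symm

theorem fermat_small (h2 : Module.finrank ℂ E = 2) (h : HasFermatRelation E X) :
    HasSmallLevels E X := by
  obtain ⟨N, n, d, ψ, L, hψ, hn, hd, h0, hr, hc⟩ := h
  exact Or.inl ⟨h2, fermat_levels hψ hn hd h0 hr hc⟩

end

end Pool.Agent.CE
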