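import Pool.Agent.Lib_helper58.CE.B1
import Pool.Agent.Lib_helper58.CE.Fermat
import Pool.Agent.Lib_helper58.OM.Main2

/-! # Level families (MP_45e720_ag): assembly -/

set_option autoImplicit false
set_option linter.unusedVariables false
set_option linter.unusedSectionVars false

open Filter Topology Metric Set
open scoped Manifold ContDiff

namespace Pool.Agent.CE

open Pool.Agent.CartanLevels

section

variable {E X : Type} [NormedAddCommGroup E] [NormedSpace ℂ E] [FiniteDimensional ℂ E]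

/-- a Brody curve is doubly periodic or contained in a member of the level family -/
theorem level_dichotomy [TopologicalSpace X] [CompactSpace X] [T2Space X] [ChartedSpace E X]
    [IsManifold 𝓘(ℂ, E) ω X] (hX : PlaneAmple E X) {𝒵 : Set (Set X)}
    (hZ : IsLevelFamily E 𝒵) {h : ℂ → X} (hh : IsBrody E h) :
    HasTwoPeriods h ∨ ∃ Z ∈ 𝒵, ∀ z, h z ∈ Z := by
  rcases OM.level_dichotomy (planeAmple_old hX) (family_old hZ) (isBrody_old hh) with h1 | h1
  · exact Or.inl (twoPeriods_new h1)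
  · exact Or.inr h1

theorem levels_old [TopologicalSpace X] [CompactSpace X] [T2Space X] [ConnectedSpace X]
    [ChartedSpace E X] [IsManifold 𝓘(ℂ, E) ω X] (h : HasSmallLevels E X) :
    ((∃ (n : ℕ) (ι : X → Projectivization ℂ (Fin (n + 1) → ℂ)), ∀ x,
      ∃ g : X → Fin (n + 1) → ℂ, SS.IsImmersiveLift E X ι g x) ∨ Module.finrank ℂ E = 2) ∧
      OrbifoldMaps.HasCurveLevels E X := by
  rcases h with ⟨h2, 𝒵, hZ, hu⟩ | ⟨hP, k, 𝒵, hZ, hc⟩
  · exact ⟨Or.inr h2, OM.surface_levels h2 (family_old hZ) hu⟩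
  · refine ⟨Or.inl (immersion_old hP), k, 𝒵, fun j => family_old (hZ j), fun Z hZj => ?_⟩
    have h1 : (⋂ j, Z j) = {x | ∀ j, x ∈ Z j} := by
      ext x
      simp
    rw [h1]
    exact curveSet_old (hc Z hZj)

theorem torus_new [TopologicalSpace X] [ChartedSpace E X] {h : ℂ → X}
    (hh : StrongLang.InTorusCurve E h) : InEllipticImage E h := by
  obtain ⟨g, h1, h2, h3, h4⟩ := hh
  exact ⟨g, h1, twoPeriods_new h2, h3, fun z => h4 ⟨z, rfl⟩⟩

/-- the main theorem -/
theorem main [TopologicalSpace X] [CompactSpace X] [T2Space X]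
    [ConnectedSpace X] [ChartedSpace E X] [IsManifold 𝓘(ℂ, E) ω X] (hX : PlaneAmple E X)
    {X' : Type} [TopologicalSpace X'] [CompactSpace X'] [T2Space X'] [ConnectedSpace X']
    [ChartedSpace E X'] [IsManifold 𝓘(ℂ, E) ω X'] {π : X' → X} (hπ : IsUnramified E π)
    (hL : HasSmallLevels E X') :
    (∀ h : ℂ → X, IsBrody E h → (∃ z z', h z ≠ h z') → InEllipticImage E h) ∧
      List.TFAE [NoEllipticCurves E X, NoTori E X, NoEntireCurves E X,
        ∀ x : X, HyperbolicAt E x] := by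
  have hP := planeAmple_old hX
  obtain ⟨p1, p2⟩ := unramified_old hπ
  obtain ⟨l1, l2⟩ := levels_old hL
  have hP' : BrodyRigid.PlaneAmple E X' := IS.etale_planeAmple p1 p2 hP
  obtain ⟨𝒢, g1, -, h3⟩ := SL.main_thm hP
  refine ⟨?_, ?_⟩
  · intro h hh hne
    obtain ⟨F, hF, hFf⟩ := exists_lift p1 p2 hh.1
    have hFb := lift_brody hπ hh hF hFf
    have hFne : ∃ z z', F z ≠ F z' := by
      obtain ⟨z, z', hz⟩ := hne
      refine ⟨z, z', fun h1 => hz ?_⟩
      rw [← hFf, ← hFf, h1]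
    obtain ⟨g, h4, h5, h6, h7⟩ := torus_new (OM.brody_levels hP' l1 l2 (isBrody_old hFb) hFne)
    refine ⟨fun z => π (g z), p1.comp h4, ?_, ?_, ?_⟩
    · obtain ⟨a, b, hab, hp⟩ := h5
      exact ⟨a, b, hab, fun z => ⟨congrArg π (hp z).1, congrArg π (hp z).2⟩⟩
    · obtain ⟨z, z', hz⟩ := hne
      obtain ⟨w, hw⟩ := h7 z
      obtain ⟨w', hw'⟩ := h7 z'
      refine ⟨w, w', ?_⟩
      simp only [hw, hw', hFf]
      exact hz
    · intro z
      obtain ⟨w, hw⟩ := h7 z
      refine ⟨w, ?_⟩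
      simp only [hw, hFf]
  · tfae_have 3 → 4 := by
      intro hb x
      have h4 := (h3 (fun h hh _ => hb h hh.1)).2.2
      have h5 : ∀ x : X, StrongLang.HyperbolicAt E x := (h4.out 1 3).1 hb
      exact hyperbolic_new (h5 x)
    tfae_have 4 → 3 := entire_of_hyp
    tfae_have 3 → 2 := tori_of_entire
    tfae_have 2 → 1 := elliptic_of_tori
    tfae_have 1 → 3 := by
      intro hT
      have hT' : BrodyRigid.NoEllipticMaps E X := fun f hf hp => hT f hf (twoPeriods_new hp)
      exact IS.etale_entire p1 p2 (OM.hyp_levels hP' l1 l2 (IS.etale_elliptic p1 p2 hT'))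
    tfae_finish

end

end Pool.Agent.CE
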